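import Pool.Agent.H31.LV.Basic
import Pool.Agent.H31.LV.Targets

/-!
# Row wEQ of lvp_modules: the mean square over a line is bounded by the functional (helper2)
-/

set_option autoImplicit false

open Finset MeasureTheory

namespace Pool.Agent.H2.LVP

open Pool.Agent.H24.CL Pool.Agent.H24.LV Pool.Agent.H31.LV

/-- a mean of numbers of absolute value one -/
lemma norm_mean_le (N : ℕ) (t : ℕ → ℝ) :
    ‖(1 / (N : ℂ)) * ∑ n ∈ range N, ee (t n)‖ ≤ 1 := by
  rw [norm_mul, norm_div, norm_one, Complex.norm_natCast]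
  have h1 : ‖∑ n ∈ range N, ee (t n)‖ ≤ N := by
    refine (norm_sum_le _ _).trans ?_
    simp only [norm_ee, sum_const, card_range, nsmul_eq_mul, mul_one, le_refl]
  rcases Nat.eq_zero_or_pos N with h | h
  · rw [h]
    simp
  · have hN : (0 : ℝ) < N := by exact_mod_cast h
    rw [one_div, inv_mul_le_iff₀ hN, mul_one]
    exact h1

lemma continuous_Ps {k : ℕ} (η : Fin k → ℝ) : Continuous (Ps η) := by
  unfold Ps
  refine continuous_finsetSum _ ?_
  intro i _
  split_ifs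
  · exact continuous_const
  · fun_prop

lemma continuous_HH {k : ℕ} (q : ℕ) (f : Fin k → ℤ) (N : ℕ) (η : Fin k → ℝ) (ξ : ℝ) (r : ℤ) :
    Continuous (fun σ => HH q f N η ξ r σ) := by
  unfold HH
  refine continuous_const.mul (continuous_finsetSum _ ?_)
  intro n _
  refine continuous_ee.comp (continuous_const.add ?_)
  exact (continuous_Ps η).comp (continuous_const.add continuous_id)

lemma continuous_TT {k : ℕ} (N : ℕ) (η : Fin k → ℝ) (s : ℝ) :
    Continuous (fun σ => TT N η s σ) := by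
  unfold TT
  refine continuous_const.mul (continuous_finsetSum _ ?_)
  intro n _
  refine continuous_ee.comp (Continuous.add ?_ ?_)
  · exact continuous_const.mul (continuous_const.add continuous_id)
  · exact (continuous_Ps η).comp (continuous_const.add continuous_id)

lemma HH_period {k : ℕ} (q : ℕ) (hq : 1 ≤ q) (f : Fin k → ℤ) (N : ℕ) (η : Fin k → ℝ) (ξ : ℝ)
    (r : ℤ) (σ : ℝ) : HH q f N η ξ (r + q) σ = HH q f N η ξ r σ := by
  unfold HH
  congr 1
  refine sum_congr rfl ?_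
  intro n _
  have hdvd : (q : ℤ) ∣ Fz f ((n : ℤ) + (r + q)) - Fz f ((n : ℤ) + r) := by
    unfold Fz
    rw [← sum_sub_distrib]
    refine dvd_sum ?_
    intro i _
    split_ifs
    · simp
    · rw [← mul_sub]
      refine Dvd.dvd.mul_left ?_ _
      have h1 : ((n : ℤ) + (r + q)) - ((n : ℤ) + r) ∣
          ((n : ℤ) + (r + q)) ^ (i.val + 1) - ((n : ℤ) + r) ^ (i.val + 1) := sub_dvd_pow_sub_pow _ _ _
      have h2 : ((n : ℤ) + (r + q)) - ((n : ℤ) + r) = q := by ring
      rwa [h2] at h1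
  obtain ⟨a, ha⟩ := hdvd
  refine ee_congr _ _ a ?_
  have hq0 : (q : ℝ) ≠ 0 := by
    have : 0 < q := hq
    positivity
  have h3 : ((Fz f ((n : ℤ) + (r + q)) : ℤ) : ℝ) = (Fz f ((n : ℤ) + r) : ℤ) + q * a := by
    have h4 : Fz f ((n : ℤ) + (r + q)) = Fz f ((n : ℤ) + r) + q * a := by linarith
    rw [h4]
    push_cast
    ring
  rw [h3]
  field_simp
  ring

theorem pf_wEQ (hEA : W_EA) (hEL : W_EL) (hEB : W_EB) (hEC : W_EC) (hPV : W_PV) : W_EQ := by
  intro k hk
  obtain ⟨C2, hC2, hEA⟩ := hEA k hk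
  obtain ⟨C1, hC1, hEL⟩ := hEL k
  refine ⟨C2 + 4 * (1 + C1 * C2), by nlinarith, ?_⟩
  intro q D N x b c R hL hq hD hN hx hco hR hqR hNear
  obtain ⟨f, η, ξ, hf1, hf2, hf3, hf4⟩ := hEA q D N x b c R hL hq hD hN hx hco (by linarith) hNear
  have hD0 : (0 : ℝ) < D := by exact_mod_cast hD
  have hN0 : (0 : ℝ) < N := by exact_mod_cast hN
  have hq0 : (0 : ℝ) < q := by exact_mod_cast hq
  have hCC : 0 ≤ C1 * C2 := by nlinarith
  refine ⟨f, η, -(x : ℝ) / D, ξ, ?_, ?_, hf1, ?_, hf3, ?_⟩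
  · rw [le_div_iff₀ hD0]
    have : (x : ℝ) ≤ D := by exact_mod_cast hx.le
    linarith
  · rw [div_le_iff₀ hD0]
    have : (0 : ℝ) ≤ x := Nat.cast_nonneg x
    linarith
  · intro i hi
    refine (hf2 i hi).trans ?_
    apply div_le_div_of_nonneg_right _ (by positivity)
    apply mul_le_mul_of_nonneg_right _ (by linarith)
    nlinarith
  · -- the representatives
    obtain ⟨u, v, huv⟩ : ∃ u v : ℤ, u * (D : ℤ) + v * (q : ℤ) = 1 := by
      have h1 : IsCoprime ((D : ℕ) : ℤ) ((q : ℕ) : ℤ) := Nat.isCoprime_iff_coprime.2 hco.symm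
      obtain ⟨u, v, h⟩ := h1
      exact ⟨u, v, h⟩
    obtain ⟨r, hr⟩ : ∃ r : ℕ → ℤ, ∀ y, r y = u * ((y : ℤ) - x) := ⟨_, fun _ => rfl⟩
    have hrd : ∀ y : ℕ, (q : ℤ) ∣ (D : ℤ) * r y - ((y : ℤ) - x) := by
      intro y
      refine ⟨-(v * ((y : ℤ) - x)), ?_⟩
      rw [hr]
      linear_combination ((y : ℤ) - x) * huv
    obtain ⟨G, hG⟩ : ∃ G : ℤ → ℝ → ℝ, ∀ z σ, G z σ = ‖HH q f N η ξ z σ‖ ^ 2 :=
      ⟨_, fun _ _ => rfl⟩
    have hG01 : ∀ z σ, 0 ≤ G z σ ∧ G z σ ≤ 1 := by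
      intro z σ
      rw [hG]
      refine ⟨by positivity, ?_⟩
      have h1 : ‖HH q f N η ξ z σ‖ ≤ 1 := norm_mean_le N _
      have h2 : 0 ≤ ‖HH q f N η ξ z σ‖ := norm_nonneg _
      nlinarith
    have hGc : ∀ z, Continuous (G z) := by
      intro z
      have h1 : G z = fun σ => ‖HH q f N η ξ z σ‖ ^ 2 := by
        funext σ
        exact hG z σ
      rw [h1]
      exact (continuous_HH q f N η ξ z).norm.pow 2
    have hGp : ∀ z σ, G (z + q) σ = G z σ := by
      intro z σ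
      rw [hG, hG, HH_period q hq]
    have hGL : ∀ z σ σ', -1 ≤ σ → σ ≤ 1 → -1 ≤ σ' → σ' ≤ 1 →
        |G z σ - G z σ'| ≤ (C1 * (C2 * R)) * |σ - σ'| := by
      intro z σ σ' h1 h2 h3 h4
      rw [hG, hG]
      exact hEL q N f η ξ (C2 * R) z σ σ' hq hN (by nlinarith) hf2 h1 h2 h3 h4
    have hEB' := hEB q D x G (C1 * (C2 * R)) r hq hD hx hco (by
      have : 0 ≤ C1 * C2 * R := mul_nonneg hCC (by linarith)
      linarith) hG01 hGc hGp hGL
      (fun y _ => hrd y)
    have hVD : VD D N b = (1 / (D : ℝ)) * ∑ y ∈ range D, G (r y) (((y : ℝ) - x) / D) := by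
      unfold VD
      congr 1
      refine sum_congr rfl ?_
      intro y hy
      rw [hG, hf4 y (r y) (mem_range.1 hy) (hrd y)]
    have hint : (1 / (q : ℝ)) * ∑ z ∈ range q,
        (∫ σ in (-(x : ℝ) / D)..(-(x : ℝ) / D + 1), G z σ) = VF q f (N : ℝ) η (-(x : ℝ) / D) ξ := by
      have h1 : ∑ z ∈ range q, (∫ σ in (-(x : ℝ) / D)..(-(x : ℝ) / D + 1), G z σ) =
          ∫ σ in (-(x : ℝ) / D)..(-(x : ℝ) / D + 1), ∑ z ∈ range q, G z σ := by
        rw [intervalIntegral.integral_finsetSum]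
        intro z _
        exact (hGc z).intervalIntegrable _ _
      rw [h1, ← intervalIntegral.integral_const_mul]
      have h2 : ∀ σ, (1 / (q : ℝ)) * ∑ z ∈ range q, G z σ =
          ∑ l ∈ range q, Al q f (l : ℤ) * ‖TT N η (ξ + (l : ℝ) / q) σ‖ ^ 2 := by
        intro σ
        rw [← hEC k q N f η ξ σ hq hN]
        congr 1
        refine sum_congr rfl ?_
        intro z _
        rw [hG]
      have h3 : (fun σ => (1 / (q : ℝ)) * ∑ z ∈ range q, G z σ) =
          fun σ => ∑ l ∈ range q, Al q f (l : ℤ) * ‖TT N η (ξ + (l : ℝ) / q) σ‖ ^ 2 := by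
        funext σ
        exact h2 σ
      rw [h3, intervalIntegral.integral_finsetSum]
      · unfold VF
        refine sum_congr rfl ?_
        intro l _
        rw [intervalIntegral.integral_const_mul,
          (hPV k N η (-(x : ℝ) / D) (ξ + (l : ℝ) / q) hN).tsum_eq]
      · intro l _
        exact (continuous_const.mul ((continuous_TT N η _).norm.pow 2)).intervalIntegrable _ _
    rw [hVD]
    rw [hint] at hEB'
    refine hEB'.trans ?_
    have h5 : 4 * (1 + C1 * (C2 * R)) * q / D ≤ (C2 + 4 * (1 + C1 * C2)) * R ^ 2 / D := by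
      apply div_le_div_of_nonneg_right _ hD0.le
      have e1 : 4 * (1 + C1 * (C2 * R)) ≤ 4 * (1 + C1 * C2) * R := by nlinarith
      have e2 : 4 * (1 + C1 * (C2 * R)) * q ≤ 4 * (1 + C1 * C2) * R * R := by
        apply mul_le_mul e1 hqR hq0.le
        have : 0 ≤ 4 * (1 + C1 * C2) := by linarith
        exact mul_nonneg this (by linarith)
      have e3 : 0 ≤ C2 * R ^ 2 := by positivity
      nlinarith
    linarith

end Pool.Agent.H2.LVP
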